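import Pool.Agent.Lib_helper24.Friendly.Local

/-!
# Arithmetic of the equation `σ(a)/a = σ(b)/b`
-/

namespace Friendly

open Finset ArithmeticFunction

/-- a solution of `σ(a)/a = σ(b)/b` with `a < b` -/
def IsSolution (a b : ℕ) : Prop :=
  0 < a ∧ a < b ∧ (sigma 1 a : ℚ) / a = (sigma 1 b : ℚ) / b

/-- a primitive solution: no common divisor `d > 1` can be divided out -/
def IsPrimitive (a b : ℕ) : Prop :=
  IsSolution a b ∧ ∀ d : ℕ, 1 < d → d ∣ a → d ∣ b → ¬ IsSolution (a / d) (b / d)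

theorem sigma_pow {p : ℕ} (hp : p.Prime) (k : ℕ) : sigma 1 (p ^ k) = s p k := by
  rw [sigma_one_apply, Nat.sum_divisors_prime_pow hp]
  rfl

theorem sigma_eq_prod {n : ℕ} (hn : n ≠ 0) :
    sigma 1 n = ∏ p ∈ n.primeFactors, s p (n.factorization p) := by
  rw [isMultiplicative_sigma.multiplicative_factorization (sigma 1) hn, Finsupp.prod,
    Nat.support_factorization]
  exact prod_congr rfl (fun p hp => sigma_pow (Nat.prime_of_mem_primeFactors hp) _)

theorem sigma_pos' {n : ℕ} (hn : 0 < n) : 0 < sigma 1 n := by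
  rw [sigma_one_apply]
  exact sum_pos (fun d hd => Nat.pos_of_mem_divisors hd) ⟨1, by simp; omega⟩

theorem sigma_le_sq (n : ℕ) : sigma 1 n ≤ n ^ 2 := by
  rw [sigma_one_apply]
  calc ∑ d ∈ n.divisors, d ≤ ∑ _d ∈ n.divisors, n :=
        sum_le_sum (fun d hd => Nat.divisor_le hd)
    _ = n.divisors.card * n := by rw [sum_const, smul_eq_mul]
    _ ≤ n * n := Nat.mul_le_mul_right _ (Nat.card_divisors_le_self n)
    _ = n ^ 2 := by ring

theorem not_dvd_s {p : ℕ} (hp : p.Prime) (k : ℕ) : ¬ p ∣ s p k := by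
  intro h
  have h1 : s p k = p * (∑ i ∈ range k, p ^ i) + 1 := by
    rw [s, sum_range_succ', pow_zero, mul_sum]
    congr 1
    exact sum_congr rfl (fun i _ => by ring)
  rw [h1] at h
  have h2 := (Nat.dvd_add_right (dvd_mul_right p _)).1 h
  exact hp.one_lt.ne' (Nat.dvd_one.1 h2)

theorem IsSolution.eq {a b : ℕ} (h : IsSolution a b) : sigma 1 a * b = sigma 1 b * a := by
  obtain ⟨ha, hab, h⟩ := h
  have ha' : (a : ℚ) ≠ 0 := by exact_mod_cast ha.ne'
  have hb' : (b : ℚ) ≠ 0 := by exact_mod_cast (ha.trans hab).ne'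
  rw [div_eq_div_iff ha' hb'] at h
  exact_mod_cast h

theorem hit_aux {a b : ℕ} (ha : 0 < a) (hb : 0 < b) (h : sigma 1 a * b = sigma 1 b * a) {p : ℕ}
    (hp : p.Prime) (hlt : a.factorization p < b.factorization p) :
    ∃ q ∈ b.primeFactors, q ≠ p ∧ p ∣ s q (b.factorization q) := by
  have h1 : p ∣ sigma 1 b := by
    by_contra hnd
    have h2 : p ^ b.factorization p ∣ sigma 1 b * a := by
      rw [← h]
      exact dvd_mul_of_dvd_right (Nat.ordProj_dvd b p) _
    have h3 : Nat.Coprime (p ^ b.factorization p) (sigma 1 b) :=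
      Nat.Coprime.pow_left _ ((Nat.Prime.coprime_iff_not_dvd hp).2 hnd)
    have h4 := h3.dvd_of_dvd_mul_left h2
    rw [hp.pow_dvd_iff_le_factorization ha.ne'] at h4
    omega
  rw [sigma_eq_prod hb.ne', Prime.dvd_finsetProd_iff hp.prime] at h1
  obtain ⟨q, hq, hd⟩ := h1
  refine ⟨q, hq, ?_, hd⟩
  rintro rfl
  exact not_dvd_s hp _ hd

theorem hit {a b : ℕ} (h : IsSolution a b) {p : ℕ} (hp : p.Prime)
    (hne : a.factorization p ≠ b.factorization p) :
    ∃ q ∈ (a * b).primeFactors, q ≠ p ∧ p ∣ s q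
      (if a.factorization p < b.factorization p then b.factorization q
        else a.factorization q) := by
  have ha : 0 < a := h.1
  have hb : 0 < b := h.1.trans h.2.1
  rw [Nat.primeFactors_mul ha.ne' hb.ne']
  split_ifs with hlt
  · obtain ⟨q, hq, h1, h2⟩ := hit_aux ha hb h.eq hp hlt
    exact ⟨q, mem_union_right _ hq, h1, h2⟩
  · obtain ⟨q, hq, h1, h2⟩ := hit_aux hb ha h.eq.symm hp (by omega)
    exact ⟨q, mem_union_left _ hq, h1, h2⟩

theorem prim_ne {a b : ℕ} (h : IsPrimitive a b) {p : ℕ} (hp : p ∈ (a * b).primeFactors) :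
    a.factorization p ≠ b.factorization p := by
  intro heq
  obtain ⟨hsol, hprim⟩ := h
  have ha : 0 < a := hsol.1
  have hb : 0 < b := hsol.1.trans hsol.2.1
  have hpp : p.Prime := Nat.prime_of_mem_primeFactors hp
  set e := a.factorization p with he
  have hmem : p ∣ a ∨ p ∣ b := (Nat.Prime.dvd_mul hpp).1 (Nat.dvd_of_mem_primeFactors hp)
  have he1 : e ≠ 0 := by
    rcases hmem with h | h
    · exact (hpp.factorization_pos_of_dvd ha.ne' h).ne'
    · rw [heq]; exact (hpp.factorization_pos_of_dvd hb.ne' h).ne'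
  have hda : p ^ e ∣ a := Nat.ordProj_dvd a p
  have hdb : p ^ e ∣ b := by rw [heq]; exact Nat.ordProj_dvd b p
  have hca : Nat.Coprime (p ^ e) (a / p ^ e) := (Nat.coprime_ordCompl hpp ha.ne').pow_left _
  have hcb : Nat.Coprime (p ^ e) (b / p ^ e) := by
    rw [heq]; exact (Nat.coprime_ordCompl hpp hb.ne').pow_left _
  have h1 : 1 < p ^ e := Nat.one_lt_pow he1 hpp.one_lt
  refine hprim (p ^ e) h1 hda hdb ?_
  have ha1 : a = p ^ e * (a / p ^ e) := (Nat.mul_div_cancel' hda).symm
  have hb1 : b = p ^ e * (b / p ^ e) := (Nat.mul_div_cancel' hdb).symm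
  have ha2 : 0 < a / p ^ e := Nat.div_pos (Nat.le_of_dvd ha hda) (by omega)
  have hb2 : 0 < b / p ^ e := Nat.div_pos (Nat.le_of_dvd hb hdb) (by omega)
  refine ⟨ha2, ?_, ?_⟩
  · by_contra hle
    have h2 : p ^ e * (b / p ^ e) ≤ p ^ e * (a / p ^ e) := Nat.mul_le_mul_left _ (by omega)
    rw [← ha1, ← hb1] at h2
    have := hsol.2.1
    omega
  · have h3 : sigma 1 a = sigma 1 (p ^ e) * sigma 1 (a / p ^ e) := by
      conv_lhs => rw [ha1]
      exact isMultiplicative_sigma.map_mul_of_coprime hca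
    have h4 : sigma 1 b = sigma 1 (p ^ e) * sigma 1 (b / p ^ e) := by
      conv_lhs => rw [hb1]
      exact isMultiplicative_sigma.map_mul_of_coprime hcb
    have h5 := hsol.eq
    have h6 : sigma 1 (a / p ^ e) * (b / p ^ e) = sigma 1 (b / p ^ e) * (a / p ^ e) := by
      have h7 : (sigma 1 (p ^ e) * p ^ e) * (sigma 1 (a / p ^ e) * (b / p ^ e)) =
          (sigma 1 (p ^ e) * p ^ e) * (sigma 1 (b / p ^ e) * (a / p ^ e)) := by
        calc (sigma 1 (p ^ e) * p ^ e) * (sigma 1 (a / p ^ e) * (b / p ^ e))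
            = (sigma 1 (p ^ e) * sigma 1 (a / p ^ e)) * (p ^ e * (b / p ^ e)) := by ring
          _ = (sigma 1 (p ^ e) * sigma 1 (b / p ^ e)) * (p ^ e * (a / p ^ e)) := by
              rw [← h3, ← h4, ← ha1, ← hb1, h5]
          _ = _ := by ring
      exact Nat.eq_of_mul_eq_mul_left
        (Nat.mul_pos (sigma_pos' (by positivity)) (by positivity)) h7
    have ha3 : ((a / p ^ e : ℕ) : ℚ) ≠ 0 := by exact_mod_cast ha2.ne'
    have hb3 : ((b / p ^ e : ℕ) : ℚ) ≠ 0 := by exact_mod_cast hb2.ne'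
    rw [div_eq_div_iff ha3 hb3]
    exact_mod_cast h6

/-- the product of the prime powers -/
theorem prod_weights {a b : ℕ} (ha : a ≠ 0) (hb : b ≠ 0) :
    ∏ p ∈ (a * b).primeFactors, p ^ (a.factorization p + b.factorization p) = a * b := by
  have h := Nat.prod_factorization_pow_eq_self (Nat.mul_ne_zero ha hb)
  rw [Finsupp.prod, Nat.support_factorization] at h
  conv_rhs => rw [← h]
  refine prod_congr rfl (fun p _ => ?_)
  rw [Nat.factorization_mul ha hb]
  rfl

/-- the number of prime factors -/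
theorem omega_le (n K : ℕ) (hn : n ≠ 0) (hK : 2 ≤ K) :
    (n.primeFactors.card : ℝ) ≤ K + Real.log n / Real.log K := by
  classical
  have hlogK : 0 < Real.log K := Real.log_pos (by exact_mod_cast hK)
  have h1 : (n.primeFactors.filter (fun p => p ≤ K)).card ≤ K := by
    calc (n.primeFactors.filter (fun p => p ≤ K)).card ≤ (Icc 1 K).card := by
          refine card_le_card (fun p hp => ?_)
          rw [mem_filter] at hp
          rw [mem_Icc]
          exact ⟨(Nat.prime_of_mem_primeFactors hp.1).one_lt.le, hp.2⟩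
      _ = K := by simp
  have h2 : ((n.primeFactors.filter (fun p => ¬ p ≤ K)).card : ℝ) ≤ Real.log n / Real.log K := by
    rw [le_div_iff₀ hlogK, ← Real.log_pow]
    apply Real.log_le_log (by positivity)
    have h3 : K ^ (n.primeFactors.filter (fun p => ¬ p ≤ K)).card ≤
        ∏ p ∈ n.primeFactors.filter (fun p => ¬ p ≤ K), p := by
      apply pow_card_le_prod
      intro p hp
      rw [mem_filter] at hp
      omega
    have h4 : ∏ p ∈ n.primeFactors.filter (fun p => ¬ p ≤ K), p ≤ ∏ p ∈ n.primeFactors, p :=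
      prod_le_prod_of_subset_of_one_le' (filter_subset _ _)
        (fun p hp _ => (Nat.prime_of_mem_primeFactors hp).one_lt.le)
    have h5 : ∏ p ∈ n.primeFactors, p ≤ n :=
      Nat.le_of_dvd (Nat.pos_of_ne_zero hn) (Nat.prod_primeFactors_dvd n)
    exact_mod_cast h3.trans (h4.trans h5)
  have h3 : n.primeFactors.card = (n.primeFactors.filter (fun p => p ≤ K)).card +
      (n.primeFactors.filter (fun p => ¬ p ≤ K)).card :=
    (card_filter_add_card_filter_not _).symm
  rw [h3]
  push_cast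
  have h1' : ((n.primeFactors.filter (fun p => p ≤ K)).card : ℝ) ≤ K := by exact_mod_cast h1
  linarith

end Friendly
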