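import Mathlib

/-!
# The Vieta chain `1, 3, 13, 61, 291, ...`
-/

namespace Friendly

open Finset

/-- `1, 3, 13, 61, 291, ...` with `v (n+2) = 5 v (n+1) - v n - 1` -/
def vseq : ℕ → ℕ × ℕ
  | 0 => (1, 3)
  | n + 1 => ((vseq n).2, 5 * (vseq n).2 - (vseq n).1 - 1)

def v (n : ℕ) : ℕ := (vseq n).1

theorem v_succ (n : ℕ) : v (n + 1) = (vseq n).2 := rfl

theorem v_zero : v 0 = 1 := rfl
theorem v_one : v 1 = 3 := rfl

theorem v_two' (n : ℕ) : v (n + 2) = 5 * v (n + 1) - v n - 1 := rfl

theorem v_mono (n : ℕ) : 1 ≤ v n ∧ 3 * v n ≤ v (n + 1) := by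
  induction n with
  | zero => simp [v_zero, v_one]
  | succ n ih =>
    obtain ⟨h1, h2⟩ := ih
    rw [v_two']
    omega

theorem v_two (n : ℕ) : v (n + 2) + v n + 1 = 5 * v (n + 1) := by
  have h := v_mono n
  rw [v_two']
  omega

theorem v_inv (n : ℕ) : v (n + 1) ^ 2 + v n ^ 2 + v (n + 1) + v n + 1 = 5 * (v n * v (n + 1)) := by
  induction n with
  | zero => simp [v_zero, v_one]
  | succ n ih =>
    have h := v_two n
    have h1 : v (n + 2) = 5 * v (n + 1) - v n - 1 := v_two' n
    zify at *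
    have h2 : (v (n + 2) : ℤ) = 5 * v (n + 1) - v n - 1 := by linarith
    rw [show n + 1 + 1 = n + 2 from rfl, h2]
    nlinarith [ih]

theorem v_mul (n : ℕ) : v (n + 2) * v n = v (n + 1) ^ 2 + v (n + 1) + 1 := by
  have h := v_two n
  have h1 := v_inv n
  zify at *
  have h2 : (v (n + 2) : ℤ) = 5 * v (n + 1) - v n - 1 := by linarith
  rw [h2]
  nlinarith [h1]

theorem three_pow_le (n : ℕ) : 3 ^ n ≤ v n := by
  induction n with
  | zero => simp [v_zero]
  | succ n ih =>
    have := (v_mono n).2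
    rw [pow_succ]
    omega

theorem vieta_chain : ∀ x y : ℕ, 1 ≤ x → x < y → x ∣ y ^ 2 + y + 1 → y ∣ x ^ 2 + x + 1 →
    ∃ n, x = v n ∧ y = v (n + 1) := by
  intro x
  induction x using Nat.strong_induction_on with
  | _ x ih =>
    intro y hx hxy h1 h2
    rcases Nat.lt_or_ge x 2 with hx2 | hx2
    · have hx1 : x = 1 := by omega
      subst hx1
      have h3 : y ≤ 3 := Nat.le_of_dvd (by norm_num) (by simpa using h2)
      have h4 : y ∣ 3 := by simpa using h2
      have h5 : y = 2 ∨ y = 3 := by omega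
      rcases h5 with rfl | rfl
      · norm_num at h4
      · exact ⟨0, rfl, rfl⟩
    · obtain ⟨x', hx'⟩ := h2
      have hx'1 : 1 ≤ x' := by
        by_contra h
        have : x' = 0 := by omega
        subst this
        simp at hx'
      have hyx : x + 2 ≤ y := by
        by_contra h
        have h3 : y = x + 1 := by omega
        subst h3
        have h4 : x + 1 ∣ 1 := by
          have h5 : x + 1 ∣ x * (x + 1) + 1 := ⟨x', by rw [← hx']; ring⟩
          exact (Nat.dvd_add_right (dvd_mul_left _ _)).1 h5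
        have := Nat.le_of_dvd one_pos h4
        omega
      have hlt : x' < x := by
        by_contra h
        have h3 : x ≤ x' := by omega
        have h4 : (x + 2) * x ≤ y * x' := Nat.mul_le_mul hyx h3
        rw [← hx'] at h4
        nlinarith
      have hd : x ∣ x' ^ 2 + x' + 1 := by
        have h3 : x ∣ x' ^ 2 * (y ^ 2 + y + 1) := dvd_mul_of_dvd_right h1 _
        have h4 : x' ^ 2 * (y ^ 2 + y + 1) = (x ^ 2 + x + 1) ^ 2 + (x ^ 2 + x + 1) * x' + x' ^ 2 := by
          rw [hx']; ring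
        have h5 : (x ^ 2 + x + 1) ^ 2 + (x ^ 2 + x + 1) * x' + x' ^ 2 =
            x * ((x + 1) * (x ^ 2 + x + 2) + (x + 1) * x') + (x' ^ 2 + x' + 1) := by ring
        rw [h4, h5] at h3
        exact (Nat.dvd_add_right (dvd_mul_right _ _)).1 h3
      have hd2 : x' ∣ x ^ 2 + x + 1 := ⟨y, by rw [hx']; ring⟩
      obtain ⟨m, hm1, hm2⟩ := ih x' hlt x hx'1 hlt hd2 hd
      refine ⟨m + 1, hm2, ?_⟩
      have h6 := v_mul m
      rw [← hm1, ← hm2, hx'] at h6
      exact (Nat.eq_of_mul_eq_mul_right (by omega) h6).symm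

/-- The number of sets of indices with bounded sum. -/
theorem subset_count (t : ℝ) (ht : 0 < t) (ht1 : t < 1) (N M : ℕ) :
    (((range N).powerset.filter (fun T => ∑ n ∈ T, n ≤ M)).card : ℝ) ≤
      t⁻¹ ^ M * Real.exp (1 / (1 - t)) := by
  have h1 : (((range N).powerset.filter (fun T => ∑ n ∈ T, n ≤ M)).card : ℝ) * t ^ M ≤
      ∑ T ∈ (range N).powerset, ∏ n ∈ T, t ^ n := by
    rw [← nsmul_eq_mul, ← sum_const]
    calc ∑ _T ∈ (range N).powerset.filter (fun T => ∑ n ∈ T, n ≤ M), t ^ M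
        ≤ ∑ T ∈ (range N).powerset.filter (fun T => ∑ n ∈ T, n ≤ M), ∏ n ∈ T, t ^ n := by
          refine sum_le_sum (fun T hT => ?_)
          rw [prod_pow_eq_pow_sum]
          exact pow_le_pow_of_le_one ht.le ht1.le (mem_filter.1 hT).2
      _ ≤ _ := sum_le_sum_of_subset_of_nonneg (filter_subset _ _)
          (fun _ _ _ => prod_nonneg (fun _ _ => by positivity))
  have h2 : ∑ T ∈ (range N).powerset, ∏ n ∈ T, t ^ n = ∏ n ∈ range N, (1 + t ^ n) := by
    rw [prod_one_add]
  have h3 : ∏ n ∈ range N, (1 + t ^ n) ≤ Real.exp (1 / (1 - t)) := by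
    calc ∏ n ∈ range N, (1 + t ^ n) ≤ ∏ n ∈ range N, Real.exp (t ^ n) :=
          prod_le_prod (fun _ _ => by positivity)
            (fun n _ => by rw [add_comm]; exact Real.add_one_le_exp _)
      _ = Real.exp (∑ n ∈ range N, t ^ n) := (Real.exp_sum _ _).symm
      _ ≤ Real.exp (1 / (1 - t)) := by
          apply Real.exp_le_exp.2
          have h4 := geom_sum_mul t N
          have h5 : ∑ n ∈ range N, t ^ n = (1 - t ^ N) / (1 - t) := by
            rw [eq_div_iff (by linarith)]
            nlinarith [h4]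
          rw [h5]
          have h6 : 0 ≤ t ^ N := by positivity
          exact div_le_div_of_nonneg_right (by linarith) (by linarith)
  have h4 : 0 < t ^ M := by positivity
  rw [inv_pow, ← div_eq_inv_mul, le_div_iff₀ h4]
  linarith

end Friendly
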