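import Pool.Agent.Lib_helper24.Friendly.Src
import Pool.Agent.Lib_helper24.Friendly.Arith
import Pool.Agent.Lib_helper24.Friendly.Vieta

/-!
# Seeds and the exploration count
-/

namespace Friendly

open Finset ArithmeticFunction Relation

/-- the hitting relation -/
def Hit (a b q p : ℕ) : Prop :=
  q ∈ (a * b).primeFactors ∧ p ∈ (a * b).primeFactors ∧
    p ∣ s q (a.factorization q) * s q (b.factorization q)

open Classical in
/-- a set of seeds: it generates all primes of `a b`, and splits as small, generic and Vieta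
seeds, the product of the generic ones being at most `(a b) ^ (1/5)` -/
structure IsSeed (a b : ℕ) (Z : Finset ℕ) : Prop where
  sub : Z ⊆ (a * b).primeFactors
  gen : ∀ p ∈ (a * b).primeFactors, ∃ z ∈ Z, ReflTransGen (Hit a b) z p
  bound : (∏ z ∈ Z.filter (fun z => 5 ≤ z ∧ ¬ ∃ n, z = v n), z) ^ 5 ≤ a * b

theorem exists_seed {a b : ℕ} (h : IsPrimitive a b) : ∃ Z, IsSeed a b Z := by
  classical
  have ha : 0 < a := h.1.1
  have hb : 0 < b := h.1.1.trans h.1.2.1
  set V := (a * b).primeFactors with hV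
  obtain ⟨Z, A, hZV, hZ, hdis, hgen⟩ := exists_sources V (Hit a b) (fun q p hqp => ⟨hqp.1, hqp.2.1⟩)
  refine ⟨Z, hZV, hgen, ?_⟩
  set Z1 := Z.filter (fun z => 5 ≤ z ∧ ¬ ∃ n, z = v n) with hZ1
  have key : ∀ z ∈ Z1, z ^ 5 ≤ ∏ y ∈ A z, y ^ (a.factorization y + b.factorization y) := by
    intro z hz
    rw [hZ1, mem_filter] at hz
    obtain ⟨hzZ, hz5, hzv⟩ := hz
    obtain ⟨hzA, hAV, hmin, hclosed⟩ := hZ z hzZ
    have hpr : ∀ y ∈ A z, y.Prime := fun y hy => Nat.prime_of_mem_primeFactors (hAV hy)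
    have hhit : ∀ y ∈ A z, ∃ q ∈ A z, q ≠ y ∧ y ∣ s q
        (if a.factorization y < b.factorization y then b.factorization q
          else a.factorization q) := by
      intro y hy
      obtain ⟨q, hq, hqy, hd⟩ := hit h.1 (hpr y hy) (prim_ne h (hAV hy))
      refine ⟨q, hclosed y hy q ⟨hq, hAV hy, ?_⟩, hqy, hd⟩
      split_ifs at hd
      · exact dvd_mul_of_dvd_right hd _
      · exact dvd_mul_of_dvd_left hd _
    rcases local_lemma (A z) z hzA hmin hpr hz5 a.factorization b.factorization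
      (fun y hy => prim_ne h (hAV hy)) hhit with h1 | ⟨P, hP, h1, h2, h3⟩
    · calc z ^ 5 ≤ z ^ (∑ y ∈ A z, (a.factorization y + b.factorization y)) :=
            Nat.pow_le_pow_right (by omega) h1
        _ = ∏ y ∈ A z, z ^ (a.factorization y + b.factorization y) :=
            (prod_pow_eq_pow_sum _ _ _).symm
        _ ≤ _ := prod_le_prod' (fun y hy => Nat.pow_le_pow_left (hmin y hy) _)
    · exfalso
      apply hzv
      obtain ⟨n, hn, _⟩ := vieta_chain z P (by omega) h1 h3 h2
      exact ⟨n, hn⟩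
  have hsubZ : Z1 ⊆ Z := filter_subset _ _
  calc (∏ z ∈ Z1, z) ^ 5 = ∏ z ∈ Z1, z ^ 5 := (prod_pow _ _ _).symm
    _ ≤ ∏ z ∈ Z1, ∏ y ∈ A z, y ^ (a.factorization y + b.factorization y) :=
        prod_le_prod' key
    _ = ∏ y ∈ Z1.biUnion A, y ^ (a.factorization y + b.factorization y) := by
        rw [prod_biUnion]
        intro z hz z' hz' hne
        exact hdis z (hsubZ hz) z' (hsubZ hz') hne
    _ ≤ ∏ y ∈ V, y ^ (a.factorization y + b.factorization y) := by
        apply prod_le_prod_of_subset_of_one_le'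
        · intro y hy
          rw [mem_biUnion] at hy
          obtain ⟨z, hz, hy⟩ := hy
          exact (hZ z (hsubZ hz)).2.1 hy
        · intro y hy _
          exact Nat.one_le_pow _ _ (Nat.prime_of_mem_primeFactors hy).pos
    _ = a * b := prod_weights ha.ne' hb.ne'

/-- the explored primes -/
def Expl (Z : Finset ℕ) (a b : ℕ) : Finset ℕ := Z ∪ (sigma 1 a * sigma 1 b).primeFactors

theorem hit_mem_expl {a b q p : ℕ} (Z : Finset ℕ) (ha : 0 < a) (hb : 0 < b)
    (hp : p.Prime) (h : p ∣ s q (a.factorization q) * s q (b.factorization q)) (_hq : q.Prime) :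
    p ∈ Expl Z a b := by
  rw [Expl, mem_union]
  right
  rw [Nat.mem_primeFactors]
  have hs : ∀ n : ℕ, 0 < n → s q (n.factorization q) ∣ sigma 1 n := by
    intro n hn
    rw [sigma_eq_prod hn.ne']
    by_cases hqn : q ∈ n.primeFactors
    · exact dvd_prod_of_mem _ hqn
    · have : n.factorization q = 0 := by
        rw [← Nat.support_factorization, Finsupp.notMem_support_iff] at hqn
        exact hqn
      rw [this, s_zero]
      exact one_dvd _
  refine ⟨hp, h.trans (mul_dvd_mul (hs a ha) (hs b hb)),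
    (Nat.mul_pos (sigma_pos' ha) (sigma_pos' hb)).ne'⟩

/-- two different pairs with the same seeds differ at a common explored prime -/
theorem explore {Z : Finset ℕ} {a b a' b' : ℕ} (ha : 0 < a) (hb : 0 < b) (ha' : 0 < a')
    (hb' : 0 < b') (hZ : IsSeed a b Z) (hZ' : IsSeed a' b' Z)
    (heq : ∀ p, p ∈ Expl Z a b → p ∈ Expl Z a' b' →
      a.factorization p = a'.factorization p ∧ b.factorization p = b'.factorization p) :
    a = a' ∧ b = b' := by
  have main : ∀ {a b a' b' : ℕ}, 0 < a → 0 < b → 0 < a' → 0 < b' → IsSeed a b Z →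
      (∀ p, p ∈ Expl Z a b → p ∈ Expl Z a' b' →
        a.factorization p = a'.factorization p ∧ b.factorization p = b'.factorization p) →
      ∀ p ∈ (a * b).primeFactors,
        a.factorization p = a'.factorization p ∧ b.factorization p = b'.factorization p := by
    intro a b a' b' ha hb ha' hb' hZ heq p hp
    obtain ⟨z, hz, hreach⟩ := hZ.gen p hp
    have : p ∈ Expl Z a b ∧ p ∈ Expl Z a' b' := by
      clear hp
      induction hreach with
      | refl => exact ⟨mem_union_left _ hz, mem_union_left _ hz⟩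
      | @tail q r _ hqr ih =>
        obtain ⟨h1, h2, h3⟩ := hqr
        have h4 := heq q ih.1 ih.2
        have hq : q.Prime := Nat.prime_of_mem_primeFactors h1
        have hr : r.Prime := Nat.prime_of_mem_primeFactors h2
        refine ⟨hit_mem_expl Z ha hb hr h3 hq, hit_mem_expl Z ha' hb' hr ?_ hq⟩
        rw [← h4.1, ← h4.2]
        exact h3
    exact heq p this.1 this.2
  have hfac : ∀ p, a.factorization p = a'.factorization p ∧
      b.factorization p = b'.factorization p := by
    intro p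
    by_cases hp : p ∈ (a * b).primeFactors
    · exact main ha hb ha' hb' hZ heq p hp
    · by_cases hp' : p ∈ (a' * b').primeFactors
      · have := main ha' hb' ha hb hZ' (fun p h1 h2 => ⟨(heq p h2 h1).1.symm, (heq p h2 h1).2.symm⟩)
          p hp'
        exact ⟨this.1.symm, this.2.symm⟩
      · rw [Nat.primeFactors_mul ha.ne' hb.ne', mem_union, not_or] at hp
        rw [Nat.primeFactors_mul ha'.ne' hb'.ne', mem_union, not_or] at hp'
        simp only [← Nat.support_factorization, Finsupp.notMem_support_iff] at hp hp'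
        rw [hp.1, hp.2, hp'.1, hp'.2]
        exact ⟨rfl, rfl⟩
  exact ⟨Nat.eq_of_factorization_eq ha.ne' ha'.ne' (fun p => (hfac p).1),
    Nat.eq_of_factorization_eq hb.ne' hb'.ne' (fun p => (hfac p).2)⟩

theorem sum_weights_le {a b N : ℕ} (ha : 0 < a) (hb : 0 < b) (hN : a * b ≤ N) (E : Finset ℕ) :
    ∑ p ∈ E, (a.factorization p + b.factorization p) ≤ Nat.log 2 N := by
  classical
  have h1 : ∑ p ∈ E, (a.factorization p + b.factorization p) ≤
      ∑ p ∈ (a * b).primeFactors, (a.factorization p + b.factorization p) := by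
    calc ∑ p ∈ E, (a.factorization p + b.factorization p)
        = ∑ p ∈ E.filter (fun p => p ∈ (a * b).primeFactors),
            (a.factorization p + b.factorization p) := by
          rw [sum_filter_of_ne]
          intro p _ hne
          by_contra hp
          rw [Nat.primeFactors_mul ha.ne' hb.ne', mem_union, not_or] at hp
          simp only [← Nat.support_factorization, Finsupp.notMem_support_iff] at hp
          omega
      _ ≤ _ := sum_le_sum_of_subset (fun p hp => (mem_filter.1 hp).2)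
  refine h1.trans ?_
  have hN0 : N ≠ 0 := by
    have : 0 < a * b := Nat.mul_pos ha hb
    omega
  apply Nat.le_log_of_pow_le (by norm_num)
  calc 2 ^ (∑ p ∈ (a * b).primeFactors, (a.factorization p + b.factorization p))
      = ∏ p ∈ (a * b).primeFactors, 2 ^ (a.factorization p + b.factorization p) :=
        (prod_pow_eq_pow_sum _ _ _).symm
    _ ≤ ∏ p ∈ (a * b).primeFactors, p ^ (a.factorization p + b.factorization p) :=
        prod_le_prod' (fun p hp =>
          Nat.pow_le_pow_left (Nat.prime_of_mem_primeFactors hp).two_le _)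
    _ = a * b := prod_weights ha.ne' hb.ne'
    _ ≤ N := hN

theorem geom_le {t : ℝ} (ht : 0 < t) (ht1 : t < 1) (n : ℕ) :
    ∑ i ∈ range n, t ^ i ≤ (1 - t)⁻¹ := by
  have h4 := geom_sum_mul t n
  have h5 : ∑ i ∈ range n, t ^ i = (1 - t ^ n) / (1 - t) := by
    rw [eq_div_iff (by linarith)]
    nlinarith [h4]
  rw [h5, inv_eq_one_div]
  have h6 : 0 ≤ t ^ n := by positivity
  exact div_le_div_of_nonneg_right (by linarith) (by linarith)

/-- The number of pairs with a given set of seeds. -/
theorem fiber_bound (t : ℝ) (ht : 0 < t) (ht1 : t < 1) (N ℓ : ℕ) (Z : Finset ℕ)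
    (X : Finset (ℕ × ℕ))
    (hX : ∀ x ∈ X, 0 < x.1 ∧ 0 < x.2 ∧ x.1 * x.2 ≤ N ∧ IsSeed x.1 x.2 Z ∧
      (Expl Z x.1 x.2).card ≤ ℓ) :
    (X.card : ℝ) ≤ t⁻¹ ^ (Nat.log 2 N) * (((1 - t) ^ 2)⁻¹) ^ ℓ := by
  classical
  set L := Nat.log 2 N with hL
  set S : ℝ := ∑ w : Fin (L + 1) × Fin (L + 1), t ^ ((w.1 : ℕ) + (w.2 : ℕ)) with hS
  have hSeq : S = (∑ i ∈ range (L + 1), t ^ i) * (∑ i ∈ range (L + 1), t ^ i) := by
    rw [hS, Fintype.sum_prod_type, sum_mul_sum, ← Fin.sum_univ_eq_sum_range
      (fun i => ∑ j ∈ range (L + 1), t ^ i * t ^ j)]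
    refine sum_congr rfl (fun i _ => ?_)
    rw [← Fin.sum_univ_eq_sum_range (fun j => t ^ (i : ℕ) * t ^ j)]
    exact sum_congr rfl (fun j _ => pow_add _ _ _)
  have hg := geom_le ht ht1 (L + 1)
  have hg0 : 0 < ∑ i ∈ range (L + 1), t ^ i :=
    sum_pos (fun i _ => by positivity) ⟨0, by simp⟩
  have hSpos : 0 < S := by rw [hSeq]; positivity
  have h1t : 0 < 1 - t := by linarith
  set q : ℝ := (1 - t) ^ 2 with hq
  have hqpos : 0 < q := by positivity
  have hq1 : q ≤ 1 := by rw [hq]; nlinarith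
  have hSq : q ≤ S⁻¹ := by
    rw [le_inv_comm₀ hqpos hSpos, hSeq, hq, ← inv_pow, pow_two]
    exact mul_le_mul hg hg hg0.le (by positivity)
  set μ : Fin (L + 1) × Fin (L + 1) → ℝ := fun w => t ^ ((w.1 : ℕ) + (w.2 : ℕ)) * S⁻¹ with hμ
  have hμsum : ∑ w, μ w = 1 := by
    rw [hμ, ← sum_mul, ← hS]
    exact mul_inv_cancel₀ hSpos.ne'
  set B := N ^ 2 + N + 1 with hB
  set D : ℕ × ℕ → Finset (Fin B) := fun x => univ.filter (fun i => (i : ℕ) ∈ Expl Z x.1 x.2) with hD
  set g : ℕ × ℕ → Fin B → Fin (L + 1) × Fin (L + 1) := fun x i =>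
    (⟨min (x.1.factorization i) L, by omega⟩, ⟨min (x.2.factorization i) L, by omega⟩) with hgdef
  have hle : ∀ x ∈ X, ∀ p, x.1.factorization p ≤ L ∧ x.2.factorization p ≤ L := by
    intro x hx p
    obtain ⟨h1, h2, h3, _, _⟩ := hX x hx
    have := sum_weights_le h1 h2 h3 {p}
    rw [sum_singleton] at this
    omega
  have hlt : ∀ x ∈ X, ∀ p ∈ Expl Z x.1 x.2, p < B := by
    intro x hx p hp
    obtain ⟨h1, h2, h3, h4, _⟩ := hX x hx
    rw [Expl, mem_union] at hp
    rcases hp with hp | hp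
    · have := Nat.le_of_mem_primeFactors (h4.sub hp)
      omega
    · have h5 := Nat.le_of_mem_primeFactors hp
      have h6 : sigma 1 x.1 * sigma 1 x.2 ≤ N ^ 2 := by
        calc sigma 1 x.1 * sigma 1 x.2 ≤ x.1 ^ 2 * x.2 ^ 2 :=
              Nat.mul_le_mul (sigma_le_sq _) (sigma_le_sq _)
          _ = (x.1 * x.2) ^ 2 := by ring
          _ ≤ N ^ 2 := Nat.pow_le_pow_left h3 2
      omega
  have hkraft := kraft μ (fun w => by rw [hμ]; positivity) hμsum X D g (by
    intro x hx x' hx' hne
    by_contra hcon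
    push Not at hcon
    apply hne
    obtain ⟨h1, h2, h3, h4, _⟩ := hX x hx
    obtain ⟨h1', h2', h3', h4', _⟩ := hX x' hx'
    have := explore h1 h2 h1' h2' h4 h4' (by
      intro p hp hp'
      have e := hcon ⟨p, hlt x hx p hp⟩ (by simp [hD, hp]) (by simp [hD, hp'])
      simp only [hgdef, Prod.mk.injEq, Fin.mk.injEq] at e
      have a1 := hle x hx p
      have a2 := hle x' hx' p
      omega)
    exact Prod.ext this.1 this.2)
  have hlow : ∀ x ∈ X, t ^ L * q ^ ℓ ≤ ∏ i ∈ D x, μ (g x i) := by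
    intro x hx
    obtain ⟨h1, h2, h3, h4, h5⟩ := hX x hx
    have e1 : ∏ i ∈ D x, μ (g x i) =
        t ^ (∑ i ∈ D x, (x.1.factorization i + x.2.factorization i)) * S⁻¹ ^ (D x).card := by
      rw [← prod_pow_eq_pow_sum, ← prod_const, ← prod_mul_distrib]
      refine prod_congr rfl (fun i _ => ?_)
      have a1 := hle x hx i
      simp only [hμ, hgdef, min_eq_left a1.1, min_eq_left a1.2]
    have e2 : ∑ i ∈ D x, (x.1.factorization i + x.2.factorization i) ≤ L := by
      have e3 : ∑ i ∈ D x, (x.1.factorization i + x.2.factorization i) =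
          ∑ p ∈ (D x).image Fin.val, (x.1.factorization p + x.2.factorization p) := by
        rw [sum_image (fun i _ j _ hij => Fin.ext hij)]
      rw [e3]
      exact sum_weights_le h1 h2 h3 _
    have e4 : (D x).card ≤ ℓ := by
      refine le_trans ?_ h5
      rw [← card_image_of_injective (D x) Fin.val_injective]
      refine card_le_card (fun p hp => ?_)
      rw [mem_image] at hp
      obtain ⟨i, hi, rfl⟩ := hp
      simp only [hD, mem_filter, mem_univ, true_and] at hi
      exact hi
    rw [e1]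
    refine mul_le_mul (pow_le_pow_of_le_one ht.le ht1.le e2) ?_ (by positivity) (by positivity)
    calc q ^ ℓ ≤ q ^ (D x).card := pow_le_pow_of_le_one hqpos.le hq1 e4
      _ ≤ S⁻¹ ^ (D x).card := pow_le_pow_left₀ hqpos.le hSq _
  have hfinal : (X.card : ℝ) * (t ^ L * q ^ ℓ) ≤ 1 := by
    calc (X.card : ℝ) * (t ^ L * q ^ ℓ) = ∑ _x ∈ X, t ^ L * q ^ ℓ := by
          rw [sum_const, nsmul_eq_mul]
      _ ≤ ∑ x ∈ X, ∏ i ∈ D x, μ (g x i) := sum_le_sum hlow
      _ ≤ 1 := hkraft
  have hpos : 0 < t ^ L * q ^ ℓ := by positivity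
  rw [inv_pow, inv_pow, ← mul_inv]
  rw [← one_div, le_div_iff₀ hpos]
  exact hfinal

end Friendly
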