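import Pool.Agent.Lib_helper24.Friendly.Count

/-!
# The number of primitive solutions of `σ(a)/a = σ(b)/b`
-/

namespace Friendly

open Finset ArithmeticFunction Relation

theorem v_strictMono : StrictMono v :=
  strictMono_nat_of_lt_succ (fun n => by have := v_mono n; omega)

/-- the pairs that are counted -/
noncomputable def pairs (N : ℕ) : Finset (ℕ × ℕ) := by
  classical
  exact ((Icc 1 N) ×ˢ (Icc 1 N)).filter (fun x => IsPrimitive x.1 x.2 ∧ x.1 * x.2 ≤ N)

theorem mem_pairs {N : ℕ} {x : ℕ × ℕ} :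
    x ∈ pairs N ↔ IsPrimitive x.1 x.2 ∧ x.1 * x.2 ≤ N := by
  classical
  unfold pairs
  rw [mem_filter, mem_product, mem_Icc, mem_Icc]
  constructor
  · exact fun h => h.2
  · intro h
    have h1 : 0 < x.1 := h.1.1.1
    have h2 : x.1 < x.2 := h.1.1.2.1
    refine ⟨⟨⟨h1, ?_⟩, ⟨by omega, ?_⟩⟩, h⟩
    · exact (Nat.le_mul_of_pos_right _ (by omega)).trans h.2
    · exact (Nat.le_mul_of_pos_left _ h1).trans h.2

open Classical in
/-- a chosen seed -/
noncomputable def seedOf (x : ℕ × ℕ) : Finset ℕ :=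
  if h : IsPrimitive x.1 x.2 then (exists_seed h).choose else ∅

theorem seedOf_spec {x : ℕ × ℕ} (h : IsPrimitive x.1 x.2) : IsSeed x.1 x.2 (seedOf x) := by
  unfold seedOf
  rw [dif_pos h]
  exact (exists_seed h).choose_spec

open Classical in
/-- the code of a set of seeds -/
noncomputable def code (N : ℕ) (Z : Finset ℕ) : Finset ℕ × ℕ × Finset ℕ :=
  (Z.filter (fun z => z < 5), ∏ z ∈ Z.filter (fun z => 5 ≤ z ∧ ¬ ∃ n, z = v n), z,
    (range (N + 1)).filter (fun n => v n ∈ Z ∧ 5 ≤ v n))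

/-- the set of seeds with a given code -/
def decode (τ : Finset ℕ × ℕ × Finset ℕ) : Finset ℕ :=
  τ.1 ∪ τ.2.1.primeFactors ∪ τ.2.2.image v

theorem decode_code {N a b : ℕ} {Z : Finset ℕ} (_ha : 0 < a) (_hb : 0 < b) (hN : a * b ≤ N)
    (hZ : IsSeed a b Z) : decode (code N Z) = Z := by
  classical
  have hpr : ∀ z ∈ Z, z.Prime := fun z hz => Nat.prime_of_mem_primeFactors (hZ.sub hz)
  have hle : ∀ z ∈ Z, z ≤ N := fun z hz =>
    (Nat.le_of_mem_primeFactors (hZ.sub hz)).trans hN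
  unfold decode code
  simp only
  rw [Nat.primeFactors_prod (fun z hz => hpr z (filter_subset _ _ hz))]
  ext z
  simp only [mem_union, mem_filter, mem_image, mem_range]
  constructor
  · rintro ((h | h) | ⟨n, h, rfl⟩)
    · exact h.1
    · exact h.1
    · exact h.2.1
  · intro hz
    by_cases h5 : z < 5
    · exact Or.inl (Or.inl ⟨hz, h5⟩)
    · by_cases hv : ∃ n, z = v n
      · obtain ⟨n, rfl⟩ := hv
        refine Or.inr ⟨n, ⟨?_, hz, by omega⟩, rfl⟩
        have h1 := hle _ hz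
        have h2 := three_pow_le n
        have h3 : n < 3 ^ n := Nat.lt_pow_self (by norm_num)
        omega
      · exact Or.inl (Or.inr ⟨hz, by omega, hv⟩)

/-- the possible codes -/
noncomputable def codes (N : ℕ) : Finset (Finset ℕ × ℕ × Finset ℕ) :=
  (range 5).powerset ×ˢ (Icc 1 ⌊(N : ℝ) ^ ((1 : ℝ) / 5)⌋₊) ×ˢ
    ((range (N + 1)).powerset.filter (fun T => ∑ n ∈ T, n ≤ Nat.log 2 N))

theorem code_mem {N a b : ℕ} {Z : Finset ℕ} (ha : 0 < a) (hb : 0 < b) (hN : a * b ≤ N)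
    (hZ : IsSeed a b Z) : code N Z ∈ codes N := by
  classical
  have hpr : ∀ z ∈ Z, z.Prime := fun z hz => Nat.prime_of_mem_primeFactors (hZ.sub hz)
  have hab : 0 < a * b := Nat.mul_pos ha hb
  unfold code codes
  rw [mem_product, mem_product]
  refine ⟨?_, ?_, ?_⟩
  · simp only [mem_powerset]
    intro z hz
    rw [mem_filter] at hz
    exact mem_range.2 hz.2
  · simp only [mem_Icc]
    constructor
    · exact Nat.one_le_iff_ne_zero.2 (prod_ne_zero_iff.2
        (fun z hz => (hpr z (filter_subset _ _ hz)).ne_zero))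
    · apply Nat.le_floor
      have h1 : ((∏ z ∈ Z.filter (fun z => 5 ≤ z ∧ ¬ ∃ n, z = v n), z : ℕ) : ℝ) ^ (5 : ℕ) ≤ N := by
        exact_mod_cast hZ.bound.trans hN
      have h2 : (0 : ℝ) ≤ ((∏ z ∈ Z.filter (fun z => 5 ≤ z ∧ ¬ ∃ n, z = v n), z : ℕ) : ℝ) := by
        positivity
      calc ((∏ z ∈ Z.filter (fun z => 5 ≤ z ∧ ¬ ∃ n, z = v n), z : ℕ) : ℝ)
          = (((∏ z ∈ Z.filter (fun z => 5 ≤ z ∧ ¬ ∃ n, z = v n), z : ℕ) : ℝ) ^ (5 : ℕ)) ^
              ((1 : ℝ) / 5) := by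
            rw [← Real.rpow_natCast, ← Real.rpow_mul h2]
            norm_num
        _ ≤ (N : ℝ) ^ ((1 : ℝ) / 5) := Real.rpow_le_rpow (by positivity) h1 (by norm_num)
  · rw [mem_filter, mem_powerset]
    refine ⟨filter_subset _ _, ?_⟩
    apply Nat.le_log_of_pow_le (by norm_num)
    set T := (range (N + 1)).filter (fun n => v n ∈ Z ∧ 5 ≤ v n) with hT
    calc 2 ^ (∑ n ∈ T, n) = ∏ n ∈ T, 2 ^ n := (prod_pow_eq_pow_sum _ _ _).symm
      _ ≤ ∏ n ∈ T, v n := prod_le_prod' (fun n _ =>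
          (Nat.pow_le_pow_left (by norm_num) n).trans (three_pow_le n))
      _ = ∏ z ∈ T.image v, z := by
          rw [prod_image (fun i _ j _ hij => v_strictMono.injective hij)]
      _ ≤ ∏ z ∈ (a * b).primeFactors, z := by
          apply prod_le_prod_of_subset_of_one_le'
          · intro z hz
            rw [mem_image] at hz
            obtain ⟨n, hn, rfl⟩ := hz
            rw [hT, mem_filter] at hn
            exact hZ.sub hn.2.1
          · intro z hz _
            exact (Nat.prime_of_mem_primeFactors hz).one_lt.le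
      _ ≤ a * b := Nat.le_of_dvd hab (Nat.prod_primeFactors_dvd _)
      _ ≤ N := hN

theorem card_codes_le (t : ℝ) (ht : 0 < t) (ht1 : t < 1) (N : ℕ) :
    ((codes N).card : ℝ) ≤ 32 * (N : ℝ) ^ ((1 : ℝ) / 5) *
      (t⁻¹ ^ (Nat.log 2 N) * Real.exp (1 / (1 - t))) := by
  unfold codes
  rw [card_product, card_product, card_powerset, card_range, Nat.card_Icc]
  push_cast
  have h1 := subset_count t ht ht1 (N + 1) (Nat.log 2 N)
  have h2 : (⌊(N : ℝ) ^ ((1 : ℝ) / 5)⌋₊ : ℝ) ≤ (N : ℝ) ^ ((1 : ℝ) / 5) :=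
    Nat.floor_le (by positivity)
  calc (32 : ℝ) * ((⌊(N : ℝ) ^ ((1 : ℝ) / 5)⌋₊ : ℝ) *
        (((range (N + 1)).powerset.filter (fun T => ∑ n ∈ T, n ≤ Nat.log 2 N)).card : ℝ))
      ≤ 32 * ((N : ℝ) ^ ((1 : ℝ) / 5) * (t⁻¹ ^ (Nat.log 2 N) * Real.exp (1 / (1 - t)))) := by
        refine mul_le_mul_of_nonneg_left ?_ (by norm_num)
        exact mul_le_mul h2 h1 (by positivity) (by positivity)
    _ = _ := by ring

theorem expl_card_le {a b N K : ℕ} {Z : Finset ℕ} (ha : 0 < a) (hb : 0 < b) (hN : a * b ≤ N)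
    (hZ : IsSeed a b Z) (hK : 2 ≤ K) :
    ((Expl Z a b).card : ℝ) ≤ 2 * K + 3 * (Real.log N / Real.log K) := by
  have hab : 0 < a * b := Nat.mul_pos ha hb
  have hlogK : 0 < Real.log K := Real.log_pos (by exact_mod_cast hK)
  have h1 := omega_le (a * b) K hab.ne' hK
  have hσ : 0 < sigma 1 a * sigma 1 b := Nat.mul_pos (sigma_pos' ha) (sigma_pos' hb)
  have h2 := omega_le (sigma 1 a * sigma 1 b) K hσ.ne' hK
  have h3 : ((Expl Z a b).card : ℝ) ≤ (a * b).primeFactors.card +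
      (sigma 1 a * sigma 1 b).primeFactors.card := by
    have h4 : (Expl Z a b).card ≤ Z.card + (sigma 1 a * sigma 1 b).primeFactors.card :=
      card_union_le _ _
    have h5 : Z.card ≤ (a * b).primeFactors.card := card_le_card hZ.sub
    exact_mod_cast h4.trans (Nat.add_le_add_right h5 _)
  have h4 : Real.log ((a * b : ℕ) : ℝ) ≤ Real.log N :=
    Real.log_le_log (by exact_mod_cast hab) (by exact_mod_cast hN)
  have h5 : Real.log ((sigma 1 a * sigma 1 b : ℕ) : ℝ) ≤ 2 * Real.log N := by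
    have h6 : sigma 1 a * sigma 1 b ≤ N ^ 2 := by
      calc sigma 1 a * sigma 1 b ≤ a ^ 2 * b ^ 2 :=
            Nat.mul_le_mul (sigma_le_sq _) (sigma_le_sq _)
        _ = (a * b) ^ 2 := by ring
        _ ≤ N ^ 2 := Nat.pow_le_pow_left hN 2
    calc Real.log ((sigma 1 a * sigma 1 b : ℕ) : ℝ) ≤ Real.log ((N : ℝ) ^ 2) :=
          Real.log_le_log (by exact_mod_cast hσ) (by exact_mod_cast h6)
      _ = 2 * Real.log N := by rw [Real.log_pow]; norm_num
  have h6 : Real.log ((a * b : ℕ) : ℝ) / Real.log K ≤ Real.log N / Real.log K :=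
    div_le_div_of_nonneg_right h4 hlogK.le
  have h7 : Real.log ((sigma 1 a * sigma 1 b : ℕ) : ℝ) / Real.log K ≤
      2 * Real.log N / Real.log K := div_le_div_of_nonneg_right h5 hlogK.le
  have h8 : 2 * Real.log N / Real.log K = 2 * (Real.log N / Real.log K) := by ring
  linarith

/-- The main count. -/
theorem card_pairs_le (ε : ℝ) (hε : 0 < ε) :
    ∃ C : ℝ, 0 < C ∧ ∀ N : ℕ, 1 ≤ N → ((pairs N).card : ℝ) ≤ C * (N : ℝ) ^ ((1 : ℝ) / 5 + ε) := by
  classical
  set t : ℝ := (2 : ℝ) ^ (-(ε / 4)) with ht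
  have ht0 : 0 < t := by positivity
  have ht1 : t < 1 := Real.rpow_lt_one_of_one_lt_of_neg (by norm_num) (by linarith)
  have h1t : 0 < 1 - t := by linarith
  set c : ℝ := -Real.log (1 - t) with hc
  have hc0 : 0 < c := by
    rw [hc]
    have := Real.log_neg h1t (by linarith)
    linarith
  obtain ⟨K, hK2, hKc⟩ : ∃ K : ℕ, 2 ≤ K ∧ 6 * c ≤ ε / 4 * Real.log K := by
    obtain ⟨k, hk⟩ := exists_nat_ge (Real.exp (24 * c / ε))
    refine ⟨k + 2, by omega, ?_⟩
    have h1 : 24 * c / ε ≤ Real.log ((k + 2 : ℕ) : ℝ) := by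
      rw [Real.le_log_iff_exp_le (by positivity)]
      push_cast
      linarith
    rw [div_le_iff₀ hε] at h1
    linarith
  have hlogK : 0 < Real.log K := Real.log_pos (by exact_mod_cast hK2)
  refine ⟨32 * Real.exp (1 / (1 - t)) * Real.exp (4 * c * K), by positivity, ?_⟩
  intro N hN
  have hNr : (1 : ℝ) ≤ N := by exact_mod_cast hN
  have hN0 : (0 : ℝ) < N := by linarith
  have hlogN : 0 ≤ Real.log N := Real.log_nonneg hNr
  set L := Nat.log 2 N with hL
  -- the power of t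
  have htL : t⁻¹ ^ L ≤ (N : ℝ) ^ (ε / 4) := by
    have h1 : t⁻¹ = (2 : ℝ) ^ (ε / 4) := by
      rw [ht, ← Real.rpow_neg (by norm_num), neg_neg]
    rw [h1, ← Real.rpow_natCast, ← Real.rpow_mul (by norm_num), mul_comm, Real.rpow_mul (by norm_num),
      Real.rpow_natCast]
    apply Real.rpow_le_rpow (by positivity) _ (by linarith)
    have : 2 ^ L ≤ N := Nat.pow_log_le_self 2 (by omega)
    exact_mod_cast this
  -- the bound for the fibres
  set ℓ : ℕ := ⌊2 * (K : ℝ) + 3 * (Real.log N / Real.log K)⌋₊ with hℓ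
  have hℓle : (ℓ : ℝ) ≤ 2 * (K : ℝ) + 3 * (Real.log N / Real.log K) := Nat.floor_le (by positivity)
  have hq : (((1 - t) ^ 2)⁻¹) ^ ℓ ≤ Real.exp (4 * c * K) * (N : ℝ) ^ (ε / 4) := by
    have h1 : ((1 - t) ^ 2)⁻¹ = Real.exp (2 * c) := by
      rw [hc, show 2 * -Real.log (1 - t) = -(2 * Real.log (1 - t)) by ring, Real.exp_neg]
      congr 1
      rw [show (2 : ℝ) * Real.log (1 - t) = Real.log ((1 - t) ^ 2) by
        rw [Real.log_pow]; norm_num, Real.exp_log (by positivity)]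
    rw [h1, ← Real.exp_nat_mul, Real.rpow_def_of_pos hN0, ← Real.exp_add]
    apply Real.exp_le_exp.2
    calc (ℓ : ℝ) * (2 * c) ≤ (2 * (K : ℝ) + 3 * (Real.log N / Real.log K)) * (2 * c) :=
          mul_le_mul_of_nonneg_right hℓle (by positivity)
      _ = 4 * c * K + Real.log N * (6 * c / Real.log K) := by
          field_simp
          ring
      _ ≤ 4 * c * K + Real.log N * (ε / 4) := by
          have h2 : 6 * c / Real.log K ≤ ε / 4 := by
            rw [div_le_iff₀ hlogK]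
            exact hKc
          have := mul_le_mul_of_nonneg_left h2 hlogN
          linarith
  -- the fibration
  have hmaps : Set.MapsTo (fun x => code N (seedOf x)) (pairs N : Set (ℕ × ℕ)) (codes N) := by
    intro x hx
    rw [mem_coe, mem_pairs] at hx
    exact code_mem hx.1.1.1 (hx.1.1.1.trans hx.1.1.2.1) hx.2 (seedOf_spec hx.1)
  have hfib : ∀ τ ∈ codes N, (((pairs N).filter (fun x => code N (seedOf x) = τ)).card : ℝ) ≤
      t⁻¹ ^ L * (((1 - t) ^ 2)⁻¹) ^ ℓ := by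
    intro τ _
    apply fiber_bound t ht0 ht1 N ℓ (decode τ)
    intro x hx
    rw [mem_filter, mem_pairs] at hx
    obtain ⟨⟨hp, hle⟩, hτ⟩ := hx
    have hx1 : 0 < x.1 := hp.1.1
    have hx2 : 0 < x.2 := hp.1.1.trans hp.1.2.1
    have hs := seedOf_spec hp
    have hdec : decode τ = seedOf x := by
      rw [← hτ]
      exact decode_code hx1 hx2 hle hs
    rw [hdec]
    refine ⟨hx1, hx2, hle, hs, ?_⟩
    rw [hℓ]
    apply Nat.le_floor
    exact expl_card_le hx1 hx2 hle hs hK2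
  have hcard := card_eq_sum_card_fiberwise hmaps
  have hsum : ((pairs N).card : ℝ) ≤ (codes N).card * (t⁻¹ ^ L * (((1 - t) ^ 2)⁻¹) ^ ℓ) := by
    rw [hcard]
    push_cast
    rw [← nsmul_eq_mul]
    exact sum_le_card_nsmul _ _ _ hfib
  have hcodes := card_codes_le t ht0 ht1 N
  calc ((pairs N).card : ℝ) ≤ (codes N).card * (t⁻¹ ^ L * (((1 - t) ^ 2)⁻¹) ^ ℓ) := hsum
    _ ≤ (32 * (N : ℝ) ^ ((1 : ℝ) / 5) * (t⁻¹ ^ L * Real.exp (1 / (1 - t)))) *
        (t⁻¹ ^ L * (((1 - t) ^ 2)⁻¹) ^ ℓ) := mul_le_mul_of_nonneg_right hcodes (by positivity)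
    _ ≤ (32 * (N : ℝ) ^ ((1 : ℝ) / 5) * ((N : ℝ) ^ (ε / 4) * Real.exp (1 / (1 - t)))) *
        ((N : ℝ) ^ (ε / 4) * (Real.exp (4 * c * K) * (N : ℝ) ^ (ε / 4))) := by
        gcongr
    _ = 32 * Real.exp (1 / (1 - t)) * Real.exp (4 * c * K) *
        (N : ℝ) ^ ((1 : ℝ) / 5 + ε / 4 + ε / 4 + ε / 4) := by
        rw [Real.rpow_add hN0, Real.rpow_add hN0, Real.rpow_add hN0]
        ring
    _ ≤ 32 * Real.exp (1 / (1 - t)) * Real.exp (4 * c * K) * (N : ℝ) ^ ((1 : ℝ) / 5 + ε) := by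
        refine mul_le_mul_of_nonneg_left ?_ (by positivity)
        exact Real.rpow_le_rpow_of_exponent_le hNr (by linarith)

end Friendly
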