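import Mathlib

/-!
# The local lemma: small source components
-/

namespace Friendly

open Finset

/-- `1 + q + ... + q ^ k` -/
def s (q k : ℕ) : ℕ := ∑ i ∈ range (k + 1), q ^ i

theorem s_zero (q : ℕ) : s q 0 = 1 := by simp [s]
theorem s_one (q : ℕ) : s q 1 = q + 1 := by simp [s, sum_range_succ, add_comm]
theorem s_two (q : ℕ) : s q 2 = q ^ 2 + q + 1 := by simp [s, sum_range_succ]; ring
theorem s_three (q : ℕ) : s q 3 = (q + 1) * (q ^ 2 + 1) := by simp [s, sum_range_succ]; ring

theorem two_le_of_odd_mul {q t n : ℕ} (hq : Odd q) (hn : Odd n) (h : n + 1 = q * t) (_hq1 : 0 < q) :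
    ∃ u, t = 2 * u ∧ 1 ≤ u := by
  have h1 : Even (q * t) := by rw [← h]; exact hn.add_one
  have h2 : Even t := by
    rcases Nat.even_mul.1 h1 with h2 | h2
    · exact absurd h2 (Nat.not_even_iff_odd.2 hq)
    · exact h2
  obtain ⟨u, hu⟩ := h2
  refine ⟨u, by omega, ?_⟩
  by_contra h3
  have : u = 0 := by omega
  subst this
  simp at hu
  subst hu
  simp at h

theorem L2 {q P : ℕ} (hq5 : 5 ≤ q) (hq : Odd q) (hP : Odd P) (h1 : q ∣ P + 1)
    (h2 : P ∣ q ^ 2 + q + 1) : False := by
  obtain ⟨t, ht⟩ := h1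
  obtain ⟨m, hm⟩ := h2
  obtain ⟨u, hu, hu1⟩ := two_le_of_odd_mul hq hP ht (by omega)
  subst hu
  have h3 : q ∣ m + 1 := by
    have : q * (2 * u) * m = q ^ 2 + q + (m + 1) := by
      rw [← ht]; linarith [hm, add_mul P 1 m]
    have h4 : q ∣ q ^ 2 + q + (m + 1) := by rw [← this, mul_assoc]; exact dvd_mul_right _ _
    exact (Nat.dvd_add_right (by exact ⟨q + 1, by ring⟩)).1 h4
  have h5 : q ≤ m + 1 := Nat.le_of_dvd (by omega) h3
  have h6 : 2 * q ≤ P + 1 := by
    rw [ht]; nlinarith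
  have h7 : (2 * q - 1) * (q - 1) ≤ P * m := Nat.mul_le_mul (by omega) (by omega)
  rw [← hm] at h7
  obtain ⟨k, rfl⟩ : ∃ k, q = k + 5 := ⟨q - 5, by omega⟩
  have e1 : 2 * (k + 5) - 1 = 2 * k + 9 := by omega
  have e2 : k + 5 - 1 = k + 4 := by omega
  rw [e1, e2] at h7
  nlinarith

theorem L3 {q P : ℕ} (hq5 : 5 ≤ q) (hq : Odd q) (hP : Odd P) (hpr : P.Prime) (hlt : q + 1 < P)
    (h1 : q ∣ P + 1) (h2 : P ∣ (q + 1) * (q ^ 2 + 1)) : False := by
  rcases (Nat.Prime.dvd_mul hpr).1 h2 with h3 | h3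
  · have := Nat.le_of_dvd (by omega) h3; omega
  obtain ⟨t, ht⟩ := h1
  obtain ⟨m, hm⟩ := h3
  obtain ⟨u, hu, hu1⟩ := two_le_of_odd_mul hq hP ht (by omega)
  subst hu
  have h3 : q ∣ m + 1 := by
    have : q * (2 * u) * m = q ^ 2 + (m + 1) := by
      rw [← ht]; linarith [hm, add_mul P 1 m]
    have h4 : q ∣ q ^ 2 + (m + 1) := by rw [← this, mul_assoc]; exact dvd_mul_right _ _
    exact (Nat.dvd_add_right (by exact ⟨q, by ring⟩)).1 h4
  have h5 : q ≤ m + 1 := Nat.le_of_dvd (by omega) h3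
  have h6 : 2 * q ≤ P + 1 := by
    rw [ht]; nlinarith
  have h7 : (2 * q - 1) * (q - 1) ≤ P * m := Nat.mul_le_mul (by omega) (by omega)
  rw [← hm] at h7
  obtain ⟨k, rfl⟩ : ∃ k, q = k + 5 := ⟨q - 5, by omega⟩
  have e1 : 2 * (k + 5) - 1 = 2 * k + 9 := by omega
  have e2 : k + 5 - 1 = k + 4 := by omega
  rw [e1, e2] at h7
  nlinarith

theorem L4 {q r P : ℕ} (hq5 : 5 ≤ q) (hq : Odd q) (hr : Odd r) (hP : Odd P) (hr0 : 0 < r)
    (h1 : q ∣ r + 1) (h2 : r ∣ P + 1) (h3 : P ∣ q ^ 2 + q + 1) : False := by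
  obtain ⟨t, ht⟩ := h1
  obtain ⟨s', hs⟩ := h2
  obtain ⟨m, hm⟩ := h3
  obtain ⟨u, hu, hu1⟩ := two_le_of_odd_mul hq hr ht (by omega)
  obtain ⟨v, hv, hv1⟩ := two_le_of_odd_mul hr hP hs hr0
  subst hu hv
  have hm1 : 1 ≤ m := by
    by_contra h
    have : m = 0 := by omega
    subst this
    simp at hm
  -- `q * (2u) * (2v) * m = q^2 + q + ((2v+1) m + 1)`
  have e1 : q * ((2 * u) * (2 * v) * m) = q ^ 2 + q + ((2 * v + 1) * m + 1) := by
    have a1 : r * (2 * v) * m = q ^ 2 + q + 1 + m := by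
      rw [← hs]; linarith [hm, add_mul P 1 m]
    calc q * ((2 * u) * (2 * v) * m) = (q * (2 * u)) * ((2 * v) * m) := by ring
      _ = (r + 1) * ((2 * v) * m) := by rw [ht]
      _ = r * (2 * v) * m + (2 * v) * m := by ring
      _ = q ^ 2 + q + ((2 * v + 1) * m + 1) := by rw [a1]; ring
  have h4 : q ∣ (2 * v + 1) * m + 1 := by
    have h5 : q ∣ q ^ 2 + q + ((2 * v + 1) * m + 1) := by rw [← e1]; exact dvd_mul_right _ _
    exact (Nat.dvd_add_right (by exact ⟨q + 1, by ring⟩)).1 h5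
  obtain ⟨j, hj⟩ := h4
  rw [hj] at e1
  have e2 : (2 * u) * (2 * v) * m = q + 1 + j := by
    have : q * ((2 * u) * (2 * v) * m) = q * (q + 1 + j) := by rw [e1]; ring
    exact Nat.eq_of_mul_eq_mul_left (by omega) this
  have hj1 : 1 ≤ j := by
    by_contra h
    have : j = 0 := by omega
    subst this
    simp at hj
  -- `4 v m ≤ q + 1 + j`
  have e3 : 4 * (v * m) ≤ q + 1 + j := by
    rw [← e2]
    calc 4 * (v * m) = 2 * 1 * (2 * v) * m := by ring
      _ ≤ 2 * u * (2 * v) * m := by gcongr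
  have e4 : m ≤ v * m := Nat.le_mul_of_pos_left _ (by omega)
  have e5 : (2 * v + 1) * m ≤ 3 * (v * m) := by
    calc (2 * v + 1) * m = 2 * (v * m) + m := by ring
      _ ≤ 3 * (v * m) := by omega
  have e6 : 4 * (q * j) ≤ 3 * (q + 1 + j) + 4 := by omega
  have e7 : j = 1 := by
    by_contra h
    have h2 : 2 ≤ j := by omega
    nlinarith
  subst e7
  obtain ⟨k, hk⟩ := hq
  have : 2 * (u * (2 * v) * m) = q + 1 + 1 := by rw [← e2]; ring
  omega

/-- The local lemma. -/
theorem local_lemma (A : Finset ℕ) (z : ℕ) (hz : z ∈ A) (hmin : ∀ y ∈ A, z ≤ y)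
    (hpr : ∀ y ∈ A, y.Prime) (hz5 : 5 ≤ z) (α β : ℕ → ℕ) (hne : ∀ y ∈ A, α y ≠ β y)
    (hit : ∀ y ∈ A, ∃ q ∈ A, q ≠ y ∧ y ∣ s q (if α y < β y then β q else α q)) :
    5 ≤ ∑ y ∈ A, (α y + β y) ∨
      ∃ P ∈ A, z < P ∧ P ∣ z ^ 2 + z + 1 ∧ z ∣ P ^ 2 + P + 1 := by
  classical
  by_contra hcon
  push Not at hcon
  obtain ⟨hsum, hV⟩ := hcon
  have hodd : ∀ y ∈ A, Odd y := fun y hy =>
    (hpr y hy).odd_of_ne_two (by have := hmin y hy; omega)
  have hge : ∀ y ∈ A, 5 ≤ y := fun y hy => le_trans hz5 (hmin y hy)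
  have hw1 : ∀ y ∈ A, 1 ≤ α y + β y := fun y hy => by have := hne y hy; omega
  set P := A.max' ⟨z, hz⟩ with hPdef
  have hPA : P ∈ A := max'_mem _ _
  have hPmax : ∀ y ∈ A, y ≤ P := fun y hy => le_max' _ _ hy
  -- exponents
  have hexp : ∀ y q : ℕ, (if α y < β y then β q else α q) ≤ α q + β q := by
    intro y q; split_ifs <;> omega
  have hexp0 : ∀ y ∈ A, ∀ q, y ∣ s q (if α y < β y then β q else α q) →
      1 ≤ (if α y < β y then β q else α q) := by
    intro y hy q h
    by_contra h0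
    have h1 : (if α y < β y then β q else α q) = 0 := by omega
    rw [h1, s_zero] at h
    have := Nat.le_of_dvd one_pos h
    have := hge y hy
    omega
  obtain ⟨q, hqA, hqP, hqd⟩ := hit P hPA
  have hqlt : q < P := lt_of_le_of_ne (hPmax q hqA) hqP
  have he1 := hexp0 P hPA q hqd
  have hew := hexp P q
  set e := (if α P < β P then β q else α q) with he
  have he2 : 2 ≤ e := by
    by_contra h
    have h1 : e = 1 := by omega
    rw [h1, s_one] at hqd
    have h2 := Nat.le_of_dvd (by omega) hqd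
    have h3 : P = q + 1 := by omega
    have h4 := hodd P hPA
    have h5 := hodd q hqA
    rw [h3] at h4
    exact (Nat.not_even_iff_odd.2 h4) h5.add_one
  -- the sum
  have hsplit : ∑ y ∈ A, (α y + β y) =
      (α P + β P) + ((α q + β q) + ∑ y ∈ (A.erase P).erase q, (α y + β y)) := by
    rw [← add_sum_erase A _ hPA, ← add_sum_erase (A.erase P) _ (mem_erase.2 ⟨hqP, hqA⟩)]
  have hrest : ((A.erase P).erase q).card ≤ ∑ y ∈ (A.erase P).erase q, (α y + β y) := by
    rw [card_eq_sum_ones]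
    exact sum_le_sum (fun y hy => hw1 y (mem_of_mem_erase (mem_of_mem_erase hy)))
  have hwP := hw1 P hPA
  obtain ⟨r, hrA, hrq, hrd⟩ := hit q hqA
  have hf1 := hexp0 q hqA r hrd
  have hfw := hexp q r
  set f := (if α q < β q then β r else α r) with hf
  by_cases hrP : r = P
  · subst hrP
    by_cases hf2 : f = 1
    · rw [hf2, s_one] at hrd
      by_cases he3 : e = 2
      · rw [he3, s_two] at hqd
        exact L2 (hge q hqA) (hodd q hqA) (hodd P hPA) hrd hqd
      · have he4 : e = 3 := by omega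
        rw [he4, s_three] at hqd
        refine L3 (hge q hqA) (hodd q hqA) (hodd P hPA) (hpr P hPA) ?_ hrd hqd
        rcases Nat.lt_or_ge (q + 1) P with h | h
        · exact h
        · exfalso
          have h3 : P = q + 1 := by omega
          have h4 := hodd P hPA
          rw [h3] at h4
          exact (Nat.not_even_iff_odd.2 h4) (hodd q hqA).add_one
    · -- Vieta
      have hf3 : f = 2 := by omega
      have he3 : e = 2 := by omega
      have hcard : ((A.erase P).erase q).card = 0 := by omega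
      have hempty : (A.erase P).erase q = ∅ := card_eq_zero.1 hcard
      have hzq : z = q := by
        by_contra h
        have h1 : z ∈ (A.erase P).erase q := by
          rw [mem_erase, mem_erase]
          refine ⟨h, ?_, hz⟩
          have := hmin q hqA
          omega
        rw [hempty] at h1
        simp at h1
      rw [he3, s_two] at hqd
      rw [hf3, s_two] at hrd
      subst hzq
      exact hV P hPA hqlt hqd hrd
  · have hrA' : r ∈ (A.erase P).erase q := by
      rw [mem_erase, mem_erase]; exact ⟨hrq, hrP, hrA⟩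
    have hwr := hw1 r hrA
    have hrest2 : α r + β r + (((A.erase P).erase q).erase r).card ≤
        ∑ y ∈ (A.erase P).erase q, (α y + β y) := by
      rw [← add_sum_erase _ _ hrA', card_eq_sum_ones]
      refine Nat.add_le_add_left (sum_le_sum (fun y hy => hw1 y ?_)) _
      exact mem_of_mem_erase (mem_of_mem_erase (mem_of_mem_erase hy))
    have hf2 : f = 1 := by omega
    have he3 : e = 2 := by omega
    rw [he3, s_two] at hqd
    rw [hf2, s_one] at hrd
    have hcard : (((A.erase P).erase q).erase r).card = 0 := by omega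
    have hempty := card_eq_zero.1 hcard
    have honly : ∀ y ∈ A, y = P ∨ y = q ∨ y = r := by
      intro y hy
      by_contra h
      push Not at h
      have : y ∈ ((A.erase P).erase q).erase r := by
        simp only [mem_erase]; exact ⟨h.2.2, h.2.1, h.1, hy⟩
      rw [hempty] at this
      simp at this
    obtain ⟨x, hxA, hxr, hxd⟩ := hit r hrA
    have hg1 := hexp0 r hrA x hxd
    have hgw := hexp r x
    set g := (if α r < β r then β x else α x) with hg
    rcases honly x hxA with rfl | rfl | rfl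
    · have hg2 : g = 1 := by omega
      rw [hg2, s_one] at hxd
      exact L4 (hge q hqA) (hodd q hqA) (hodd r hrA) (hodd P hPA)
        (by have := hge r hrA; omega) hrd hxd hqd
    · rcases Nat.lt_or_ge g 2 with h | h
      · have hg2 : g = 1 := by omega
        rw [hg2, s_one] at hxd
        have h1 := Nat.le_of_dvd (by omega) hxd
        have h2 := Nat.le_of_dvd (by omega) hrd
        obtain ⟨a, ha⟩ := hodd x hxA
        obtain ⟨b, hb⟩ := hodd r hrA
        omega
      · have hg2 : g = 2 := by omega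
        rw [hg2, s_two] at hxd
        exact L2 (hge x hxA) (hodd x hxA) (hodd r hrA) hrd hxd
    · exact absurd rfl hxr

end Friendly
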