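import Mathlib

/-!
# Source components of a finite relation, and a Kraft inequality for partial assignments
-/

namespace Friendly

open Finset Relation

/-- Source components: in a finite relation every point is reachable from the least point `z` of a
set `A z` closed under predecessors; the sets `A z` are disjoint. -/
theorem exists_sources (V : Finset ℕ) (R : ℕ → ℕ → Prop) (hR : ∀ q p, R q p → q ∈ V ∧ p ∈ V) :
    ∃ (Z : Finset ℕ) (A : ℕ → Finset ℕ), Z ⊆ V ∧
      (∀ z ∈ Z, z ∈ A z ∧ A z ⊆ V ∧ (∀ y ∈ A z, z ≤ y) ∧ ∀ y ∈ A z, ∀ q, R q y → q ∈ A z) ∧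
      (∀ z ∈ Z, ∀ z' ∈ Z, z ≠ z' → Disjoint (A z) (A z')) ∧
      ∀ p ∈ V, ∃ z ∈ Z, ReflTransGen R z p := by
  classical
  set A : ℕ → Finset ℕ := fun p => V.filter (fun y => ReflTransGen R y p) with hA
  have mem : ∀ y p, y ∈ A p ↔ y ∈ V ∧ ReflTransGen R y p := by
    intro y p; simp [hA]
  have mono : ∀ y p, y ∈ A p → A y ⊆ A p := by
    intro y p hy x hx
    rw [mem] at *
    exact ⟨hx.1, hx.2.trans hy.2⟩
  have self : ∀ p ∈ V, p ∈ A p := fun p hp => (mem p p).2 ⟨hp, .refl⟩
  refine ⟨V.filter (fun z => (∀ y ∈ A z, z ∈ A y) ∧ ∀ y ∈ A z, z ≤ y), A,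
    filter_subset _ _, ?_, ?_, ?_⟩
  · intro z hz
    rw [mem_filter] at hz
    refine ⟨self z hz.1, filter_subset _ _, hz.2.2, ?_⟩
    intro y hy q hq
    rw [mem] at hy ⊢
    exact ⟨(hR q y hq).1, (ReflTransGen.single hq).trans hy.2⟩
  · intro z hz z' hz' hne
    rw [mem_filter] at hz hz'
    rw [disjoint_left]
    intro y hy hy'
    apply hne
    have h1 : z ∈ A z' := mono y z' hy' (hz.2.1 y hy)
    have h2 : z' ∈ A z := mono y z hy (hz'.2.1 y hy')
    exact le_antisymm (hz.2.2 z' h2) (hz'.2.2 z h1)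
  · intro p hp
    obtain ⟨y0, hy0, hmin⟩ := exists_min_image (A p) (fun y => (A y).card) ⟨p, self p hp⟩
    have hy0V : y0 ∈ V := ((mem y0 p).1 hy0).1
    have key : ∀ y ∈ A y0, A y = A y0 := by
      intro y hy
      exact eq_of_subset_of_card_le (mono y y0 hy) (hmin y (mono y0 p hy0 hy))
    have hne : (A y0).Nonempty := ⟨y0, self y0 hy0V⟩
    set z := (A y0).min' hne with hz
    have hzA : z ∈ A y0 := min'_mem _ _
    have hAz : A z = A y0 := key z hzA
    refine ⟨z, ?_, ?_⟩
    · rw [mem_filter]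
      refine ⟨((mem z y0).1 hzA).1, ?_, ?_⟩
      · intro y hy
        rw [hAz] at hy
        rw [key y hy]
        exact hzA
      · intro y hy
        rw [hAz] at hy
        exact min'_le _ _ hy
    · exact ((mem z y0).1 hzA).2.trans ((mem y0 p).1 hy0).2

/-- Kraft's inequality for partial assignments: pairwise incompatible partial assignments have
total probability at most one. -/
theorem kraft {ι W κ : Type*} [Fintype ι] [DecidableEq ι] [Fintype W] [DecidableEq W]
    (μ : W → ℝ) (hμ : ∀ w, 0 ≤ μ w) (hsum : ∑ w, μ w = 1) (X : Finset κ)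
    (D : κ → Finset ι) (g : κ → ι → W)
    (hd : ∀ x ∈ X, ∀ x' ∈ X, x ≠ x' → ∃ i, i ∈ D x ∧ i ∈ D x' ∧ g x i ≠ g x' i) :
    ∑ x ∈ X, ∏ i ∈ D x, μ (g x i) ≤ 1 := by
  classical
  set T : κ → ι → Finset W := fun x i => if i ∈ D x then {g x i} else univ with hT
  have h1 : ∀ x, ∏ i ∈ D x, μ (g x i) = ∑ G ∈ Fintype.piFinset (T x), ∏ i, μ (G i) := by
    intro x
    rw [← Finset.prod_univ_sum (T x) (fun _ w => μ w)]
    rw [← Finset.prod_subset (subset_univ (D x))]
    · refine prod_congr rfl (fun i hi => ?_)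
      simp [hT, hi]
    · intro i _ hi
      simp [hT, hi, hsum]
  have h2 : (X : Set κ).PairwiseDisjoint (fun x => Fintype.piFinset (T x)) := by
    intro x hx x' hx' hne
    obtain ⟨i, hi, hi', hg⟩ := hd x hx x' hx' hne
    rw [Function.onFun, disjoint_left]
    intro G hG hG'
    rw [Fintype.mem_piFinset] at hG hG'
    have e1 := hG i
    have e2 := hG' i
    simp only [hT, hi, hi', if_true, mem_singleton] at e1 e2
    exact hg (e1.symm.trans e2)
  calc ∑ x ∈ X, ∏ i ∈ D x, μ (g x i)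
      = ∑ x ∈ X, ∑ G ∈ Fintype.piFinset (T x), ∏ i, μ (G i) := by simp only [h1]
    _ = ∑ G ∈ X.biUnion (fun x => Fintype.piFinset (T x)), ∏ i, μ (G i) :=
        (sum_biUnion h2).symm
    _ ≤ ∑ G : ι → W, ∏ i, μ (G i) :=
        sum_le_sum_of_subset_of_nonneg (subset_univ _)
          (fun G _ _ => prod_nonneg (fun i _ => hμ _))
    _ = 1 := by
        have := Finset.prod_univ_sum (fun _ : ι => (univ : Finset W)) (fun _ w => μ w)
        rw [Fintype.piFinset_univ] at this
        rw [← this]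
        simp [hsum]

end Friendly
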